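import Pool.Agent.H80.JD.Walk

/-!
# JD board, module ONE: one step of the greedy walk
-/

set_option autoImplicit false

namespace Pool.Agent.H60.JD

open Finset Filter Topology Pool.Agent.H80.JD

lemma ff_nonneg' (B A : ℝ) (hA : 0 ≤ A) (s : ℤ) : 0 ≤ ff B A s := by
  unfold ff
  split_ifs
  · positivity
  · linarith

lemma abs_lt_of_pot {m : ℕ} (B A : ℝ) (hA : 0 ≤ A) (S : Fin m → ℤ) (h : pot B A S ≤ A)
    (j : Fin m) : |((S j : ℤ) : ℝ)| < B := by
  by_contra hc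
  have h1 : ff B A (S j) = A + 1 := by unfold ff; rw [if_neg hc]
  have h2 : ff B A (S j) ≤ pot B A S :=
    Finset.single_le_sum (f := fun j => ff B A (S j)) (fun i _ => ff_nonneg' B A hA (S i))
      (mem_univ j)
  linarith

lemma pot_eq {m : ℕ} (B A : ℝ) (S : Fin m → ℤ) (h : ∀ j, |((S j : ℤ) : ℝ)| < B) :
    pot B A S = ∑ j, (hh B (S j)) ^ 4 := by
  unfold pot
  refine Finset.sum_congr rfl (fun j _ => ?_)
  unfold ff
  rw [if_pos (h j)]

/-- the sign of the greedy choice -/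
lemma sg_choice {m : ℕ} (B : ℝ) (S : Fin m → ℤ) (v : Fin m → Bool) :
    ((sg (choice B S v) : ℤ) : ℝ) * lin (fun j => dd B (S j)) v
      = -|lin (fun j => dd B (S j)) v| := by
  unfold choice
  split_ifs with h
  · rw [sg_true, abs_of_pos h]; push_cast; ring
  · rw [sg_false, abs_of_nonpos (not_lt.1 h)]; push_cast; ring

lemma step_le (hFS : T_FS) {m : ℕ} (B A : ℝ) (S : Fin m → ℤ) (v : Fin m → Bool)
    (h : ∀ j, |((S j : ℤ) : ℝ)| < B) (h' : ∀ j, hh B (S j) ≤ B / 24) :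
    pot B A (stp B S v) ≤ pot B A S - |lin (fun j => dd B (S j)) v|
      + 148 / B ^ 2 * ∑ j, (hh B (S j)) ^ 6 := by
  have hx : ∀ j, sg (choice B S v) * sg (v j) = 1 ∨ sg (choice B S v) * sg (v j) = -1 := by
    intro j
    rw [← sg_xor]
    exact sg_cases _
  have hb : ∀ j, |((stp B S v j : ℤ) : ℝ)| < B := fun j => (hFS B (S j) _ (h j) (h' j) (hx j)).1
  rw [pot_eq B A _ hb, pot_eq B A S h]
  have h1 : ∑ j, (hh B (stp B S v j)) ^ 4 ≤ ∑ j, ((hh B (S j)) ^ 4
      + ((sg (choice B S v) : ℤ) : ℝ) * (dd B (S j) * ((sg (v j) : ℤ) : ℝ))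
      + 148 / B ^ 2 * (hh B (S j)) ^ 6) := by
    refine Finset.sum_le_sum (fun j _ => ?_)
    have h2 := (hFS B (S j) _ (h j) (h' j) (hx j)).2
    push_cast at h2
    have h3 : ((sg (choice B S v) : ℤ) : ℝ) * (dd B (S j) * ((sg (v j) : ℤ) : ℝ))
        = ((sg (choice B S v) : ℤ) : ℝ) * ((sg (v j) : ℤ) : ℝ) * dd B (S j) := by ring
    rw [h3]
    exact h2
  rw [Finset.sum_add_distrib, Finset.sum_add_distrib, ← Finset.mul_sum, ← Finset.mul_sum] at h1
  have h4 := sg_choice B S v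
  have h5 : lin (fun j => dd B (S j)) v = ∑ j, dd B (S j) * ((sg (v j) : ℤ) : ℝ) := rfl
  rw [h5] at h4 ⊢
  rw [h4] at h1
  linarith

theorem one (hFS : T_FS) (hGR : T_GR) (hEXS : T_EXS) : T_ONE := by
  intro m B hm hB
  have hm0 : (1 : ℝ) ≤ m := by exact_mod_cast hm
  have hA : (0 : ℝ) ≤ 64 * m := by positivity
  refine ⟨?_, ?_⟩
  · intro S v hS
    have h1 : pot B (64 * m) S ≤ 64 * m := by linarith
    have h2 := abs_lt_of_pot B (64 * m) hA S h1
    have h3 := pot_eq B (64 * m) S h2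
    obtain ⟨g1, g2, -, -⟩ := hGR m B S hm hB h2 (by rw [← h3]; exact h1)
    have h4 := step_le hFS B (64 * m) S v h2 (fun j => (g1 j).2)
    have h5 := abs_nonneg (lin (fun j => dd B (S j)) v)
    linarith
  · intro S hS1 hS2
    have h2 := abs_lt_of_pot B (64 * m) hA S hS2
    have h3 := pot_eq B (64 * m) S h2
    obtain ⟨g1, g2, g3, g4⟩ := hGR m B S hm hB h2 (by rw [← h3]; exact hS2)
    obtain ⟨g5, g6⟩ := g3 (by rw [← h3]; exact hS1)
    set Q : ℝ := ∑ j, (dd B (S j)) ^ 2 with hQ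
    set G : ℝ := 148 / B ^ 2 * ∑ j, (hh B (S j)) ^ 6 with hG
    have hR0 : 0 < Real.sqrt Q := Real.sqrt_pos.2 g5
    have hR2 : Real.sqrt Q ^ 2 = Q := Real.sq_sqrt g5.le
    set s : ℝ := Real.sqrt m with hs
    have hs2 : s ^ 2 = m := Real.sq_sqrt (by linarith)
    have hs0 : 0 < s := Real.sqrt_pos.2 (by linarith)
    set q : ℝ := Real.sqrt s with hq
    have hq2 : q ^ 2 = s := Real.sq_sqrt hs0.le
    have hq0 : 0 < q := Real.sqrt_pos.2 hs0
    have hR1 : Real.sqrt Q ≤ 3 / 2 * q ^ 3 := by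
      apply le_of_sq_le_sq _ (by positivity)
      rw [hR2]
      have : (3 / 2 * q ^ 3) ^ 2 = 9 / 4 * (m * s) := by
        rw [← hs2, ← hq2]; ring
      rw [this]
      exact g4
    have hη0 : (0 : ℝ) ≤ 1 / (3 * q ^ 3) := by positivity
    have hηR : 1 / (3 * q ^ 3) * Real.sqrt Q ≤ 1 / 2 := by
      have h6 : 1 / (3 * q ^ 3) * Real.sqrt Q ≤ 1 / (3 * q ^ 3) * (3 / 2 * q ^ 3) :=
        mul_le_mul_of_nonneg_left hR1 hη0
      have h7 : 1 / (3 * q ^ 3) * (3 / 2 * q ^ 3) = 1 / 2 := by field_simp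
      linarith
    have hE := hEXS m (fun j => dd B (S j)) G (Real.sqrt Q) (1 / (3 * q ^ 3)) hη0 hR0 hR2 g6 hηR
    calc ∑ v : Fin m → Bool, Real.exp (1 / (3 * q ^ 3) * pot B (64 * m) (stp B S v))
        ≤ ∑ v : Fin m → Bool, Real.exp (1 / (3 * q ^ 3) * pot B (64 * m) S)
            * Real.exp (1 / (3 * q ^ 3) * (G - |lin (fun j => dd B (S j)) v|)) := by
          refine Finset.sum_le_sum (fun v _ => ?_)
          rw [← Real.exp_add, ← mul_add]
          apply Real.exp_le_exp.2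
          apply mul_le_mul_of_nonneg_left _ hη0
          have h4 := step_le hFS B (64 * m) S v h2 (fun j => (g1 j).2)
          linarith
      _ = Real.exp (1 / (3 * q ^ 3) * pot B (64 * m) S)
            * ∑ v : Fin m → Bool, Real.exp (1 / (3 * q ^ 3)
              * (G - |lin (fun j => dd B (S j)) v|)) := by
          rw [Finset.mul_sum]
      _ ≤ Real.exp (1 / (3 * q ^ 3) * pot B (64 * m) S) * 2 ^ m :=
          mul_le_mul_of_nonneg_left hE (Real.exp_pos _).le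
      _ = 2 ^ m * Real.exp (1 / (3 * q ^ 3) * pot B (64 * m) S) := mul_comm _ _

end Pool.Agent.H60.JD
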